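import Pool.Agent.L0h15.OL.Ax

/-!
# Abel-Jacobi maps of smooth quasi-projective varieties over the algebraic numbers
-/

set_option autoImplicit false

namespace Pool.Agent.L0h15.QP

open Pool.Agent.L0h15.OL (Sp Lin ap)
open Polynomial

/-- the kernel of a linear map -/
def Ker {V W : Sp} (f : Lin V W) : Sp := ⟨LinearMap.ker (show V →ₗ[ℚ] W from f)⟩

/-- an element of the kernel, as an element of the space -/
def val {V W : Sp} {f : Lin V W} (x : Ker f) : V :=
  (show LinearMap.ker (show V →ₗ[ℚ] W from f) from x).1

/-- the value at `x` of the polynomial `p` in the endomorphism `f` -/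
noncomputable def poly {V : Sp} (f : Lin V V) (p : ℚ[X]) (x : V) : V :=
  (aeval (show Module.End ℚ V from f) p) x

/-- the data -/
structure Theory where
  /-- the smooth quasi-projective varieties over the field of algebraic numbers, of pure dimension -/
  Var : Type
  /-- the dimension -/
  dim : Var → ℕ
  /-- the projective varieties -/
  Proj : Var → Prop
  /-- the Chow group `CH^k(V; ℚ)` -/
  Ch : Var → ℤ → Sp
  /-- the Betti cohomology `H^{2k}(V(ℂ), ℚ(k))` -/
  H : Var → ℤ → Sp
  /-- the Hodge classes (for projective varieties) -/
  Hdg : ∀ V k, H V k → Prop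
  /-- the cycle class map -/
  cl : ∀ V k, Lin (Ch V k) (H V k)
  /-- the intermediate Jacobian `J^k(V(ℂ)) ⊗ ℚ` -/
  J : Var → ℤ → Sp
  /-- the Abel-Jacobi map on the homologically trivial classes -/
  aj : ∀ V k, Lin (Ker (cl V k)) (J V k)

namespace Theory

variable (T : Theory)

/-- the Abel-Jacobi map is injective in codimension `k` -/
def Inj (V : T.Var) (k : ℤ) : Prop := ∀ z, ap (T.aj V k) z = 0 → z = 0

/-- the Hodge conjecture in codimension `k` -/
def Hodge (V : T.Var) (k : ℤ) : Prop := ∀ η, T.Hdg V k η → ∃ α, ap (T.cl V k) α = η

/-- A compactification in codimension `k`: `X` is projective and contains `V` as a dense open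
subvariety, and `D` is smooth projective of dimension `dim X - 1` with a surjective map to the
complement. -/
structure Compact (X V D : T.Var) (k : ℤ) where
  /-- the restriction -/
  res : Lin (T.Ch X k) (T.Ch V k)
  /-- the direct image -/
  gys : Lin (T.Ch D (k - 1)) (T.Ch X k)
  /-- the restriction in cohomology -/
  resH : Lin (T.H X k) (T.H V k)
  /-- the direct image in cohomology -/
  gysH : Lin (T.H D (k - 1)) (T.H X k)
  /-- the restriction for the intermediate Jacobians -/
  resJ : Lin (T.J X k) (T.J V k)
  /-- the direct image for the intermediate Jacobians -/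
  gysJ : Lin (T.J D (k - 1)) (T.J X k)
  surj : ∀ x, ∃ z, ap res z = x
  res_gys : ∀ α, ap res (ap gys α) = 0
  cl_res : ∀ z, ap (T.cl V k) (ap res z) = ap resH (ap (T.cl X k) z)
  cl_gys : ∀ α, ap (T.cl X k) (ap gys α) = ap gysH (ap (T.cl D (k - 1)) α)
  aj_res : ∀ (z : Ker (T.cl X k)) (y : Ker (T.cl V k)), val y = ap res (val z) →
    ap (T.aj V k) y = ap resJ (ap (T.aj X k) z)
  /-- Deligne: the kernel of the restriction is the image of the cohomology of `D`, and a Hodge class in
  this image is the image of a Hodge class -/
  strict : ∀ z, ap resH (ap (T.cl X k) z) = 0 → ∃ η, T.Hdg D (k - 1) η ∧ ap gysH η = ap (T.cl X k) z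
  /-- `Ext η t` says that `t`, modulo the image of the intermediate Jacobian of `D`, is the extension
  class given by the Hodge class `η` in the kernel of the direct image and the mixed Hodge structure
  `H^{2k-1}(V)` -/
  Ext : T.H D (k - 1) → T.J X k → Prop
  /-- the kernel of the restriction of intermediate Jacobians, from the weight filtration of
  `H^{2k-1}(V)` -/
  ext_ker : ∀ t, ap resJ t = 0 → ∃ η, T.Hdg D (k - 1) η ∧ ap gysH η = 0 ∧ Ext η t
  ext_unique : ∀ η t t', Ext η t → Ext η t' → ∃ u, t = t' + ap gysJ u
  /-- the extension class of the class of a cycle `α` on `D`, with homologically trivial image in `X`, is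
  the Abel-Jacobi image of this image -/
  ext_cl : ∀ α (z : Ker (T.cl X k)), val z = ap gys α →
    Ext (ap (T.cl D (k - 1)) α) (ap (T.aj X k) z)

variable {T}

/-- An algebraic correspondence from `X` to `D` which is, for the rational Hodge structures
`M = H^{2k-1}(X)` and `M' = H^{2k-3}(D)(-1)`, an adjoint of the direct image for polarizations. -/
structure Compact.Adjoint {X V D : T.Var} {k : ℤ} (C : T.Compact X V D k) where
  /-- `H^{2k-1}(X)` -/
  M : Sp
  /-- `H^{2k-3}(D)(-1)` -/
  M' : Sp
  finite : FiniteDimensional ℚ M
  /-- the direct image -/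
  gysM : Lin M' M
  /-- the correspondence on cycles -/
  adj : Lin (T.Ch X k) (T.Ch D (k - 1))
  /-- the correspondence, followed by the direct image, on `H^{2k-1}(X)` -/
  opM : Lin M M
  /-- the correspondence, followed by the direct image, on the intermediate Jacobian -/
  opJ : Lin (T.J X k) (T.J X k)
  op_hom : ∀ z, ap (T.cl X k) z = 0 → ap (T.cl X k) (ap C.gys (ap adj z)) = 0
  op_aj : ∀ z y : Ker (T.cl X k), val y = ap C.gys (ap adj (val z)) →
    ap (T.aj X k) y = ap opJ (ap (T.aj X k) z)
  op_gys : ∀ x, ∃ y, ap opM (ap gysM x) = ap gysM y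
  /-- the intermediate Jacobian is a functor of the Hodge structure -/
  functor : ∀ p : ℚ[X], (∀ x, poly opM p (ap gysM x) = 0) → ∀ u, poly opJ p (ap C.gysJ u) = 0
  /-- this follows from the positivity of the polarizations -/
  pos : ∀ x, ap opM (ap gysM x) = 0 → ap gysM x = 0

variable (T)

/-- `V` has, in codimension `k`, a compactification with an algebraic adjoint, such that the Hodge classes
of degree `2 k - 2` on `D` are algebraic. This is known for `k = 2` and `k = dim V`; in general the
compactification exists (Hironaka), and the other properties follow from the Hodge conjecture. -/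
def Good (V : T.Var) (k : ℤ) : Prop :=
  ∃ (X D : T.Var) (C : T.Compact X V D k), T.Proj X ∧ T.dim X = T.dim V ∧ Nonempty C.Adjoint ∧
    T.Hodge D (k - 1)

/-- the maps which are given by correspondences: a map of cycles and a compatible map of intermediate
Jacobians -/
structure Map (X : T.Var) (k : ℤ) (Y : T.Var) (k' : ℤ) where
  /-- the map of cycles -/
  f : Lin (Ker (T.cl X k)) (Ker (T.cl Y k'))
  /-- the map of intermediate Jacobians -/
  f' : Lin (T.J X k) (T.J Y k')
  compat : ∀ z, ap (T.aj Y k') (ap f z) = ap f' (ap (T.aj X k) z)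

/-- smooth hypersurface sections `Y` of `X`, for an ample line bundle, with the direct images of cycles
of dimension `e` -/
structure Sect (Y X : T.Var) (e : ℕ) extends T.Map Y (T.dim Y - e) X (T.dim X - e) where
  projY : T.Proj Y
  dimY : T.dim Y + 1 = T.dim X
  /-- the Lefschetz hyperplane theorem for the homology of degree `2 e + 1` -/
  lefschetz : 2 * e + 1 < T.dim Y → ∀ t, ap f' t = 0 → t = 0

/-- the known properties -/
structure Known : Prop where
  large : ∀ V (k : ℤ), T.dim V < k → ∀ z : T.Ch V k, z = 0
  /-- Hironaka's theorem; for `k = 2` Lefschetz' theorem on `(1,1)`-classes and the Lefschetz standard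
  conjecture in degree `1` (Lieberman), for `k = dim V` homomorphisms of Albanese varieties -/
  good : ∀ V (k : ℤ), ¬ T.Proj V → k = 2 ∨ k = T.dim V → T.Good V k
  /-- the product with a projective line: `z ↦ z × point` is injective -/
  line : ∀ X k, T.Proj X → ∃ (Y : T.Var) (a : T.Map X k Y (k + 1)), T.Proj Y ∧
    T.dim Y = T.dim X + 1 ∧ ∀ z, ap a.f z = 0 → z = 0
  /-- If `2 e + 1 < dim X`, then every homologically trivial cycle of dimension `e` is rationally
  equivalent, with rational coefficients, to a combination of disjoint smooth subvarieties (Kleiman),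
  which is contained in some smooth hypersurface section `Y` (Bertini's theorem). It is homologically
  trivial on `Y` by the Lefschetz hyperplane theorem for the homology of degree `2 e`. -/
  bertini : ∀ X (e : ℕ), T.Proj X → 2 * e + 1 < T.dim X → ∀ z,
    ∃ (Y : T.Var) (s : T.Sect Y X e) (z' : _), ap s.f z' = z

end Theory

end Pool.Agent.L0h15.QP
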