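import Pool.Agent.L0h15.QP.Defs

/-!
# The quasi-projective case from the projective one
-/

set_option autoImplicit false

namespace Pool.Agent.L0h15.QP

open Pool.Agent.L0h15.OL (Sp Lin ap)
open Polynomial

/-- an operator which is injective on an invariant subspace is inverted there by a polynomial -/
theorem exists_poly {M : Type*} [AddCommGroup M] [Module ℚ M] [FiniteDimensional ℚ M]
    (A : Module.End ℚ M) (W : Submodule ℚ M) (hW : ∀ x ∈ W, A x ∈ W)
    (hinj : ∀ x ∈ W, A x = 0 → x = 0) :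
    ∃ q : ℚ[X], ∀ x ∈ W, (aeval A (1 - X * q)) x = 0 := by
  let B : Module.End ℚ W := A.restrict hW
  have hB : LinearMap.ker B = ⊥ := by
    rw [LinearMap.ker_eq_bot']
    rintro ⟨x, hx⟩ h
    exact Subtype.ext (hinj x hx (congrArg Subtype.val h))
  have hunit : IsUnit B := (LinearMap.isUnit_iff_ker_eq_bot B).2 hB
  have hdet : LinearMap.det B ≠ 0 := (hunit.map (LinearMap.det (M := W))).ne_zero
  have hc : B.charpoly.coeff 0 ≠ 0 := by
    intro h
    exact hdet (by rw [LinearMap.det_eq_sign_charpoly_coeff, h, mul_zero])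
  set c := B.charpoly.coeff 0 with hcdef
  refine ⟨-(C c⁻¹ * B.charpoly.divX), ?_⟩
  have hpow : ∀ (p : ℚ[X]) (x : W), (aeval A p) (x : M) = ((aeval B p) x : W) := by
    intro p
    induction p using Polynomial.induction_on' with
    | add p q hp hq => intro x; rw [map_add, map_add, LinearMap.add_apply, LinearMap.add_apply, hp,
        hq, Submodule.coe_add]
    | monomial n a =>
      intro x
      rw [aeval_monomial, aeval_monomial, Module.End.mul_apply, Module.End.mul_apply,
        Module.algebraMap_end_apply, Module.algebraMap_end_apply, Submodule.coe_smul]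
      congr 1
      induction n with
      | zero => rfl
      | succ n ih =>
        rw [pow_succ', pow_succ', Module.End.mul_apply, Module.End.mul_apply, ih]
        rfl
  intro x hx
  have h1 : (1 - X * -(C c⁻¹ * B.charpoly.divX) : ℚ[X]) = C c⁻¹ * B.charpoly := by
    have h2 : B.charpoly.divX * X + C c = B.charpoly := divX_mul_X_add B.charpoly
    have h3 : C c⁻¹ * (C c : ℚ[X]) = 1 := by rw [← C_mul, inv_mul_cancel₀ hc, C_1]
    calc (1 - X * -(C c⁻¹ * B.charpoly.divX) : ℚ[X])
        = C c⁻¹ * C c + C c⁻¹ * (B.charpoly.divX * X) := by rw [h3]; ring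
      _ = C c⁻¹ * (B.charpoly.divX * X + C c) := by ring
      _ = C c⁻¹ * B.charpoly := by rw [h2]
  rw [h1, hpow _ ⟨x, hx⟩, map_mul, LinearMap.aeval_self_charpoly, mul_zero, LinearMap.zero_apply,
    Submodule.coe_zero]

/-- compatibility with polynomials in operators -/
theorem aeval_comp {U W : Type*} [AddCommGroup U] [Module ℚ U] [AddCommGroup W] [Module ℚ W]
    (f : U →ₗ[ℚ] W) (a : Module.End ℚ U) (b : Module.End ℚ W) (h : ∀ x, f (a x) = b (f x))
    (p : ℚ[X]) : ∀ x, f ((aeval a p) x) = (aeval b p) (f x) := by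
  induction p using Polynomial.induction_on' with
  | add p q hp hq => intro x; rw [map_add, map_add, LinearMap.add_apply, LinearMap.add_apply,
      map_add, hp, hq]
  | monomial n r =>
    intro x
    rw [aeval_monomial, aeval_monomial, Module.End.mul_apply, Module.End.mul_apply,
      Module.algebraMap_end_apply, Module.algebraMap_end_apply, map_smul]
    congr 1
    induction n with
    | zero => rfl
    | succ n ih =>
      rw [pow_succ', pow_succ', Module.End.mul_apply, Module.End.mul_apply, h, ih]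

namespace Theory

variable {T : Theory}

theorem ap_zero {V W : Sp} (f : Lin V W) : ap f (0 : V) = 0 :=
  map_zero (show V →ₗ[ℚ] W from f)

theorem ap_sub {V W : Sp} (f : Lin V W) (x y : V) : ap f (x - y) = ap f x - ap f y :=
  map_sub (show V →ₗ[ℚ] W from f) x y

theorem val_sub {V W : Sp} {f : Lin V W} (x y : Ker f) : val (x - y) = val x - val y := rfl

theorem val_inj {V W : Sp} {f : Lin V W} {x : Ker f} (h : val x = 0) : x = 0 :=
  Subtype.ext h

theorem ap_val {V W : Sp} {f : Lin V W} (x : Ker f) : ap f (val x) = 0 :=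
  LinearMap.mem_ker.1 (show LinearMap.ker (show V →ₗ[ℚ] W from f) from x).2

theorem exists_val {V W : Sp} {f : Lin V W} {z : V} (h : ap f z = 0) : ∃ x : Ker f, val x = z :=
  ⟨(⟨z, h⟩ : LinearMap.ker (show V →ₗ[ℚ] W from f)), rfl⟩

/-- the quasi-projective case from the projective one -/
theorem inj_open {X V D : T.Var} {k : ℤ} (C : T.Compact X V D k) (A : C.Adjoint)
    (hD : T.Hodge D (k - 1)) (hX : T.Inj X k) : T.Inj V k := by
  intro ξ hξ
  have := A.finite
  -- a lift to `X`, homologically trivial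
  obtain ⟨z, hz⟩ := C.surj (val ξ)
  obtain ⟨η₀, hη₀, h₀⟩ := C.strict z (by rw [← C.cl_res, hz]; exact ap_val ξ)
  obtain ⟨α₀, hα₀⟩ := hD η₀ hη₀
  obtain ⟨z₁, hz₁⟩ := exists_val (f := T.cl X k) (z := z - ap C.gys α₀) (by
    rw [ap_sub, C.cl_gys, hα₀, h₀, sub_self])
  have hres₁ : ap C.res (val z₁) = val ξ := by rw [hz₁, ap_sub, C.res_gys, sub_zero, hz]
  -- the Abel-Jacobi image is in the image of `J(D)`, after a modification
  obtain ⟨η, hη, hη0, hE⟩ := C.ext_ker (ap (T.aj X k) z₁) (by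
    rw [← C.aj_res z₁ ξ hres₁.symm]; exact hξ)
  obtain ⟨α₁, hα₁⟩ := hD η hη
  obtain ⟨y, hy⟩ := exists_val (f := T.cl X k) (z := ap C.gys α₁) (by
    rw [C.cl_gys, hα₁, hη0])
  have hE' := C.ext_cl α₁ y hy
  rw [hα₁] at hE'
  obtain ⟨u, hu⟩ := C.ext_unique η _ _ hE hE'
  have haj₂ : ap (T.aj X k) (z₁ - y) = ap C.gysJ u := by rw [ap_sub, hu, add_sub_cancel_left]
  -- the polynomial
  obtain ⟨q, hq⟩ := exists_poly (show Module.End ℚ A.M from A.opM)
    (LinearMap.range (show A.M' →ₗ[ℚ] A.M from A.gysM))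
    (by
      rintro _ ⟨x, rfl⟩
      obtain ⟨y, hy⟩ := A.op_gys x
      exact ⟨y, hy.symm⟩)
    (by
      rintro _ ⟨x, rfl⟩ hx
      exact A.pos x hx)
  have hJ := A.functor (1 - Polynomial.X * q) (fun x => hq _ ⟨x, rfl⟩) u
  -- the operator on the homologically trivial classes
  let a : Module.End ℚ (T.Ch X k) :=
    (show (T.Ch D (k - 1)) →ₗ[ℚ] (T.Ch X k) from C.gys) ∘ₗ
      (show (T.Ch X k) →ₗ[ℚ] (T.Ch D (k - 1)) from A.adj)
  have hstab : ∀ x ∈ LinearMap.ker (show (T.Ch X k) →ₗ[ℚ] (T.H X k) from T.cl X k),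
      a x ∈ LinearMap.ker (show (T.Ch X k) →ₗ[ℚ] (T.H X k) from T.cl X k) := fun x hx =>
    A.op_hom x hx
  let a₀ : Module.End ℚ (Ker (T.cl X k)) := a.restrict hstab
  have hval : ∀ x : Ker (T.cl X k), val (show Ker (T.cl X k) from a₀ x) =
      ap C.gys (ap A.adj (val x)) := fun x => rfl
  have hcomp := aeval_comp (show (Ker (T.cl X k)) →ₗ[ℚ] (T.J X k) from T.aj X k) a₀
    (show Module.End ℚ (T.J X k) from A.opJ) (fun x => A.op_aj x (a₀ x) (hval x))
    (1 - Polynomial.X * q) (z₁ - y)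
  let z₃ : Ker (T.cl X k) := (aeval a₀ (1 - Polynomial.X * q)) (z₁ - y)
  have haj₃ : ap (T.aj X k) z₃ = 0 := by
    refine hcomp.trans ?_
    have h1 : (show (Ker (T.cl X k)) →ₗ[ℚ] (T.J X k) from T.aj X k) (z₁ - y) = ap C.gysJ u := haj₂
    rw [h1]
    exact hJ
  have hz₃ : z₃ = 0 := hX z₃ haj₃
  have hgen : ∀ w : (Ker (T.cl X k)).carrier,
      (aeval a₀ (1 - Polynomial.X * q)) w = w - a₀ ((aeval a₀ q) w) := by
    have h1 : aeval a₀ (1 - Polynomial.X * q) = 1 - a₀ * aeval a₀ q := by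
      rw [map_sub, map_one, map_mul, aeval_X]
    intro w
    rw [h1]
    rfl
  have hz₃' : z₃ = (z₁ - y) - a₀ ((aeval a₀ q) (z₁ - y)) := hgen (z₁ - y)
  have h2 : z₁ - y = a₀ ((aeval a₀ q) (z₁ - y)) := by
    rw [hz₃', sub_eq_zero] at hz₃
    exact hz₃
  have h3 : val (z₁ - y) = ap C.gys (ap A.adj (val ((aeval a₀ q) (z₁ - y) : Ker (T.cl X k)))) := by
    have h4 := congrArg val h2
    exact h4.trans (hval _)
  refine val_inj ?_
  rw [← hres₁]
  have h5 : val z₁ = val (z₁ - y) + val y := by rw [val_sub, sub_add_cancel]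
  have h6 : ap C.res (val (z₁ - y)) = 0 := by rw [h3, C.res_gys]
  have h7 : ap C.res (val z₁) = ap C.res (val (z₁ - y)) + ap C.res (val y) := by
    rw [h5]
    exact map_add (show (T.Ch X k) →ₗ[ℚ] (T.Ch V k) from C.res) _ _
  rw [h7, h6, hy, C.res_gys, add_zero]

end Theory

end Pool.Agent.L0h15.QP
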