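import Pool.Agent.L0h15.QP.Main

/-!
# Reduction to the dimension `2 k - 2`
-/

set_option autoImplicit false

namespace Pool.Agent.L0h15.QP

open Pool.Agent.L0h15.OL (Sp Lin ap)

namespace Theory

variable {T : Theory}

theorem inj_of_map {X Y : T.Var} {k k' : ℤ} (a : T.Map X k Y k') (h : T.Inj Y k')
    (ha : ∀ z, ap a.f z = 0 → z = 0) : T.Inj X k := by
  intro z hz
  refine ha z (h _ ?_)
  rw [a.compat, hz, ap_zero]

/-- the reduction for projective varieties -/
theorem inj_proj (hK : T.Known) (e : ℕ)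
    (hmid : ∀ X, T.Proj X → T.dim X = 2 * e + 2 → T.Inj X (e + 2)) :
    ∀ X, T.Proj X → T.Inj X (T.dim X - e) := by
  have hmid' : ∀ X, T.Proj X → T.dim X = 2 * e + 2 → T.Inj X (T.dim X - e) := by
    intro X hX hdim
    have h1 : ((T.dim X : ℤ) - e) = e + 2 := by rw [hdim]; push_cast; ring
    rw [h1]
    exact hmid X hX hdim
  have hlarge : ∀ k : ℕ, ∀ X, T.Proj X → T.dim X = 2 * e + 2 + k → T.Inj X (T.dim X - e) := by
    intro k
    induction k with
    | zero => exact hmid'
    | succ k ih =>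
      intro X hX hdim z hz
      obtain ⟨Y, s, z', rfl⟩ := hK.bertini X e hX (by omega) z
      have hY := s.dimY
      have h1 : ap (T.aj Y (T.dim Y - e)) z' = 0 := by
        refine s.lefschetz (by omega) _ ?_
        rw [← s.compat]
        exact hz
      rw [ih Y s.projY (by omega) z' h1, ap_zero]
  have hsmall : ∀ k : ℕ, ∀ X, T.Proj X → T.dim X + k = 2 * e + 2 → T.Inj X (T.dim X - e) := by
    intro k
    induction k with
    | zero => intro X hX hdim; exact hmid' X hX (by omega)
    | succ k ih =>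
      intro X hX hdim
      obtain ⟨Y, a, h1, h2, h3⟩ := hK.line X (T.dim X - e) hX
      have h4 := ih Y h1 (by omega)
      have h5 : ((T.dim Y : ℤ) - e) = (T.dim X : ℤ) - e + 1 := by rw [h2]; push_cast; ring
      rw [h5] at h4
      exact inj_of_map a h4 h3
  intro X hX
  rcases le_total (T.dim X) (2 * e + 2) with h | h
  · exact hsmall (2 * e + 2 - T.dim X) X hX (by omega)
  · exact hlarge (T.dim X - (2 * e + 2)) X hX (by omega)

/-- all codimensions -/
theorem inj_proj_all (hK : T.Known)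
    (hmid : ∀ (e : ℕ) X, T.Proj X → T.dim X = 2 * e + 2 → T.Inj X (e + 2)) (X : T.Var)
    (hX : T.Proj X) (k : ℤ) : T.Inj X k := by
  by_cases h : (T.dim X : ℤ) < k
  · intro z _
    exact val_inj (hK.large X k h _)
  · obtain ⟨e, he⟩ : ∃ e : ℕ, (e : ℤ) = T.dim X - k :=
      ⟨((T.dim X : ℤ) - k).toNat, Int.toNat_of_nonneg (by omega)⟩
    have h1 : k = T.dim X - e := by omega
    rw [h1]
    exact inj_proj hK e (hmid e) X hX

theorem inj_good {V : T.Var} {k : ℤ} (h : T.Good V k)
    (hX : ∀ X, T.Proj X → T.dim X = T.dim V → T.Inj X k) : T.Inj V k := by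
  obtain ⟨X, D, C, hP, hdim, ⟨A⟩, hH⟩ := h
  exact inj_open C A hH (hX X hP hdim)

end Theory

end Pool.Agent.L0h15.QP
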